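import Pool.Agent.K6.H72.TB.Loop

set_option autoImplicit false

open MeasureTheory

namespace Pool.Agent.Results.MP_c8123f_an.NotMinimizing

/-- `x i t` is the position at time `t` of body `i` (three bodies `0, 1, 2` in the plane `ℂ`).
Newton's equations `m_i x_i'' = ∂U/∂x_i`, `U = ∑_{i<j} m_i m_j / |x_i - x_j|`, hold for all
times, i.e. `x_i'' = ∑_{j ≠ i} m_j (x_j - x_i) / |x_j - x_i|^3`. -/
def IsSolution (m : Fin 3 → ℝ) (x : Fin 3 → ℝ → ℂ) : Prop :=
  ∃ v : Fin 3 → ℝ → ℂ, (∀ i t, HasDerivAt (x i) (v i t) t) ∧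
    ∀ i t, HasDerivAt (v i)
      (∑ j ∈ Finset.univ.erase i,
        (m j : ℂ) * (x j t - x i t) / ((‖x j t - x i t‖ : ℝ) : ℂ) ^ 3) t

/-- the winding number about `0` of the curve `γ` on `[0, T]` is `k`: a continuous choice of the
argument of `γ` on `[0, T]` increases by `2 π k` -/
def HasDegree (γ : ℝ → ℂ) (T : ℝ) (k : ℤ) : Prop :=
  ∃ φ : ℝ → ℝ, ContinuousOn φ (Set.Icc 0 T) ∧
    (∀ t ∈ Set.Icc 0 T, γ t = ((‖γ t‖ : ℝ) : ℂ) * Complex.exp ((φ t : ℂ) * Complex.I)) ∧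
    φ T - φ 0 = 2 * Real.pi * k

/-- `x` is a collision-free `T`-periodic loop with centre of mass `0` (masses `m`) and homology
class `(k₁₂, k₂₃, k₃₁) = (1, 0, -1)` -/
structure InClass (m : Fin 3 → ℝ) (T : ℝ) (x : Fin 3 → ℝ → ℂ) : Prop where
  periodic : ∀ i t, x i (t + T) = x i t
  collisionFree : ∀ i j, i ≠ j → ∀ t, x i t ≠ x j t
  centre : ∀ t, ∑ i, (m i : ℂ) * x i t = 0
  deg01 : HasDegree (fun t => x 0 t - x 1 t) T 1
  deg12 : HasDegree (fun t => x 1 t - x 2 t) T 0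
  deg20 : HasDegree (fun t => x 2 t - x 0 t) T (-1)

/-- the potential `U = ∑_{i<j} m_i m_j / |x_i - x_j|` along `x` -/
noncomputable def potential (m : Fin 3 → ℝ) (x : Fin 3 → ℝ → ℂ) (t : ℝ) : ℝ :=
  m 0 * m 1 / ‖x 0 t - x 1 t‖ + m 1 * m 2 / ‖x 1 t - x 2 t‖ + m 2 * m 0 / ‖x 2 t - x 0 t‖

/-- the action `∫_0^T (1/2 ∑ m_i |x_i'|^2 + U(x)) dt` -/
noncomputable def action (m : Fin 3 → ℝ) (T : ℝ) (x : Fin 3 → ℝ → ℂ) : ℝ :=
  ∫ t in (0:ℝ)..T, (1 / 2 * ∑ i, m i * ‖deriv (x i) t‖ ^ 2 + potential m x t)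

/-- `x` minimizes the action already among the *smooth collision-free* loops of the class
`(1, 0, -1)`.  (Every solution which is minimizing over the closure of the class has this
property.) -/
def MinimizesSmooth (m : Fin 3 → ℝ) (T : ℝ) (x : Fin 3 → ℝ → ℂ) : Prop :=
  ∀ y : Fin 3 → ℝ → ℂ, (∀ i, ContDiff ℝ (⊤ : ℕ∞) (y i)) → InClass m T y →
    action m T x ≤ action m T y

/-- the masses -/
noncomputable def mm : Fin 3 → ℝ := ![1 / 4, 1 / 2, 1 / 2]

open Pool.Agent.Helper342.Hom in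
theorem degree_of_angle {γ γ' : ℝ → ℂ} {T Δ : ℝ} (k : ℤ) (c : ℂ)
    (h : HasAngle γ 0 T Δ) (he : ∀ t, γ' t = c * γ t) (hk : Δ = 2 * Real.pi * k) :
    HasDegree γ' T k := by
  obtain ⟨φ, h1, h2, h3⟩ := h.mul_const c
  refine ⟨φ, h1, fun t ht => ?_, by rw [h3, hk]⟩
  rw [he t]; exact h2 t ht

/-- the solution -/
theorem orbit : ∃ x : Fin 3 → ℝ → ℂ, IsSolution mm x ∧ InClass mm 8 x ∧
    708 / 100 ≤ action mm 8 x := by
  obtain ⟨X, W, pX, pW, dX, dW, NCX, hA, hB, hD, hX0, hW0, hE1, hE2⟩ := Pool.Agent.K6.H72.TB.full2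
  have dU : ∀ t, HasDerivAt (fun t => (X t).1) (W t).1 t := fun t =>
    (ContinuousLinearMap.fst ℝ ℂ ℂ).hasFDerivAt.comp_hasDerivAt t (dX t)
  have dD : ∀ t, HasDerivAt (fun t => (X t).2) (W t).2 t := fun t =>
    (ContinuousLinearMap.snd ℝ ℂ ℂ).hasFDerivAt.comp_hasDerivAt t (dX t)
  have dV : ∀ t, HasDerivAt (fun t => (W t).1) (Pool.Agent.Helper342.Hom.Gam (X t)).1 t :=
    fun t => (ContinuousLinearMap.fst ℝ ℂ ℂ).hasFDerivAt.comp_hasDerivAt t (dW t)
  have dV2 : ∀ t, HasDerivAt (fun t => (W t).2) (Pool.Agent.Helper342.Hom.Gam (X t)).2 t :=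
    fun t => (ContinuousLinearMap.snd ℝ ℂ ℂ).hasFDerivAt.comp_hasDerivAt t (dW t)
  set x : Fin 3 → ℝ → ℂ := ![fun t => -(2 / 5) * (X t).1,
    fun t => (1 / 10) * (X t).1 + (1 / 2) * (X t).2,
    fun t => (1 / 10) * (X t).1 - (1 / 2) * (X t).2] with hx
  set v : Fin 3 → ℝ → ℂ := ![fun t => -(2 / 5) * (W t).1,
    fun t => (1 / 10) * (W t).1 + (1 / 2) * (W t).2,
    fun t => (1 / 10) * (W t).1 - (1 / 2) * (W t).2] with hv
  have x0 : ∀ t, x 0 t = -(2 / 5) * (X t).1 := fun t => rfl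
  have x1 : ∀ t, x 1 t = (1 / 10) * (X t).1 + (1 / 2) * (X t).2 := fun t => rfl
  have x2 : ∀ t, x 2 t = (1 / 10) * (X t).1 - (1 / 2) * (X t).2 := fun t => rfl
  have d10 : ∀ t, x 1 t - x 0 t = (1 / 2) * ((X t).1 + (X t).2) := fun t => by
    rw [x0, x1]; ring
  have d20 : ∀ t, x 2 t - x 0 t = (1 / 2) * ((X t).1 - (X t).2) := fun t => by
    rw [x0, x2]; ring
  have d12 : ∀ t, x 1 t - x 2 t = (X t).2 := fun t => by
    rw [x1, x2]; ring
  have n10 : ∀ t, x 1 t ≠ x 0 t := fun t h => by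
    have := d10 t
    rw [h, sub_self] at this
    have h2 := (NCX t).1
    apply h2
    linear_combination (-2 : ℂ) * this
  have n20 : ∀ t, x 2 t ≠ x 0 t := fun t h => by
    have := d20 t
    rw [h, sub_self] at this
    have h2 := (NCX t).2.1
    apply h2
    linear_combination (-2 : ℂ) * this
  have n12 : ∀ t, x 1 t ≠ x 2 t := fun t h => by
    have := d12 t
    rw [h, sub_self] at this
    exact (NCX t).2.2 this.symm
  have half : ∀ z : ℂ, (1 / 2 * z) / ((‖1 / 2 * z‖ : ℝ) : ℂ) ^ 3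
      = 4 * Pool.Agent.Helper342.Hom.Fc z := by
    intro z
    unfold Pool.Agent.Helper342.Hom.Fc
    rw [norm_mul]
    by_cases hz : z = 0
    · simp [hz]
    · have : ((‖z‖ : ℝ) : ℂ) ≠ 0 := by simpa using hz
      have h2 : ‖(1 / 2 : ℂ)‖ = 1 / 2 := by simp
      rw [h2]
      push_cast
      field_simp
      norm_num
  have dxv : ∀ i t, HasDerivAt (x i) (v i t) t := by
    intro i t
    fin_cases i
    · exact (dU t).const_mul _
    · exact ((dU t).const_mul _).add ((dD t).const_mul _)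
    · exact ((dU t).const_mul _).sub ((dD t).const_mul _)
  refine ⟨x, ⟨v, dxv, ?_⟩, ⟨?_, ?_, ?_, ?_, ?_, ?_⟩, ?_⟩
  · intro i t
    have F10 : ∀ t, (x 1 t - x 0 t) / ((‖x 1 t - x 0 t‖ : ℝ) : ℂ) ^ 3 =
        4 * Pool.Agent.Helper342.Hom.Fc ((X t).1 + (X t).2) := fun t => by rw [d10, half]
    have F20 : ∀ t, (x 2 t - x 0 t) / ((‖x 2 t - x 0 t‖ : ℝ) : ℂ) ^ 3 =
        4 * Pool.Agent.Helper342.Hom.Fc ((X t).1 - (X t).2) := fun t => by rw [d20, half]
    have F12 : ∀ t, (x 1 t - x 2 t) / ((‖x 1 t - x 2 t‖ : ℝ) : ℂ) ^ 3 =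
        Pool.Agent.Helper342.Hom.Fc (X t).2 := fun t => by
      rw [d12]; rfl
    have sw : ∀ i j : Fin 3, (x i t - x j t) / ((‖x i t - x j t‖ : ℝ) : ℂ) ^ 3 =
        -((x j t - x i t) / ((‖x j t - x i t‖ : ℝ) : ℂ) ^ 3) := by
      intro i j
      rw [norm_sub_rev, ← neg_div, neg_sub]
    fin_cases i
    · refine ((dV t).const_mul (-(2 / 5) : ℂ)).congr_deriv ?_
      have : (Finset.univ.erase (0 : Fin 3)) = {1, 2} := by decide
      show _ = ∑ j ∈ Finset.univ.erase (0 : Fin 3), _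
      rw [this, Finset.sum_pair (by decide), mul_div_assoc, mul_div_assoc]
      show _ = (((![1 / 4, 1 / 2, 1 / 2] : Fin 3 → ℝ) 1 : ℝ) : ℂ) *
          ((x 1 t - x 0 t) / ((‖x 1 t - x 0 t‖ : ℝ) : ℂ) ^ 3) +
        (((![1 / 4, 1 / 2, 1 / 2] : Fin 3 → ℝ) 2 : ℝ) : ℂ) *
          ((x 2 t - x 0 t) / ((‖x 2 t - x 0 t‖ : ℝ) : ℂ) ^ 3)
      rw [F10, F20]
      simp [Pool.Agent.Helper342.Hom.Gam]
      ring
    · refine (((dV t).const_mul (1 / 10 : ℂ)).add ((dV2 t).const_mul (1 / 2 : ℂ))).congr_deriv ?_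
      have : (Finset.univ.erase (1 : Fin 3)) = {0, 2} := by decide
      show _ = ∑ j ∈ Finset.univ.erase (1 : Fin 3), _
      rw [this, Finset.sum_pair (by decide), mul_div_assoc, mul_div_assoc]
      show _ = (((![1 / 4, 1 / 2, 1 / 2] : Fin 3 → ℝ) 0 : ℝ) : ℂ) *
          ((x 0 t - x 1 t) / ((‖x 0 t - x 1 t‖ : ℝ) : ℂ) ^ 3) +
        (((![1 / 4, 1 / 2, 1 / 2] : Fin 3 → ℝ) 2 : ℝ) : ℂ) *
          ((x 2 t - x 1 t) / ((‖x 2 t - x 1 t‖ : ℝ) : ℂ) ^ 3)
      rw [sw 0 1, sw 2 1, F10, F12]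
      simp [Pool.Agent.Helper342.Hom.Gam]
      ring
    · refine (((dV t).const_mul (1 / 10 : ℂ)).sub ((dV2 t).const_mul (1 / 2 : ℂ))).congr_deriv ?_
      have : (Finset.univ.erase (2 : Fin 3)) = {0, 1} := by decide
      show _ = ∑ j ∈ Finset.univ.erase (2 : Fin 3), _
      rw [this, Finset.sum_pair (by decide), mul_div_assoc, mul_div_assoc]
      show _ = (((![1 / 4, 1 / 2, 1 / 2] : Fin 3 → ℝ) 0 : ℝ) : ℂ) *
          ((x 0 t - x 2 t) / ((‖x 0 t - x 2 t‖ : ℝ) : ℂ) ^ 3) +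
        (((![1 / 4, 1 / 2, 1 / 2] : Fin 3 → ℝ) 1 : ℝ) : ℂ) *
          ((x 1 t - x 2 t) / ((‖x 1 t - x 2 t‖ : ℝ) : ℂ) ^ 3)
      rw [sw 0 2, F20, F12]
      simp [Pool.Agent.Helper342.Hom.Gam]
      ring
  · intro i t
    fin_cases i
    · show x 0 (t + 8) = x 0 t
      rw [x0, x0, pX]
    · show x 1 (t + 8) = x 1 t
      rw [x1, x1, pX]
    · show x 2 (t + 8) = x 2 t
      rw [x2, x2, pX]
  · intro i j hij t
    fin_cases i <;> fin_cases j
    · exact absurd rfl hij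
    · exact (n10 t).symm
    · exact (n20 t).symm
    · exact n10 t
    · exact absurd rfl hij
    · exact n12 t
    · exact n20 t
    · exact (n12 t).symm
    · exact absurd rfl hij
  · intro t
    rw [Fin.sum_univ_three, x0, x1, x2]
    simp [mm]
    ring
  · refine degree_of_angle 1 (-(1 / 2)) hA (fun t => ?_) (by push_cast; ring)
    show x 0 t - x 1 t = _
    rw [← neg_sub, d10]; ring
  · refine degree_of_angle 0 1 hD (fun t => ?_) (by push_cast; ring)
    show x 1 t - x 2 t = _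
    rw [d12, one_mul]
  · refine degree_of_angle (-1) (1 / 2) hB (fun t => ?_) (by push_cast; ring)
    show x 2 t - x 0 t = _
    rw [d20]
  · -- the action
    have key := Pool.Agent.K6.H72.TB.action_eq dX dW NCX 8 (by rw [← pX 0, zero_add])
      (by rw [← pW 0, zero_add])
    have sq : ∀ z : ℂ, ‖z‖ ^ 2 = z.re ^ 2 + z.im ^ 2 := fun z => by
      rw [← Complex.normSq_eq_norm_sq, Complex.normSq_apply]; ring
    have e : action mm 8 x = ∫ t in (0:ℝ)..8,
        (Pool.Agent.K6.H72.TB.Kin (W t) + Pool.Agent.K6.H72.TB.Pot (X t)) := by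
      unfold action
      congr 1
      funext t
      have hk : 1 / 2 * ∑ i, mm i * ‖deriv (x i) t‖ ^ 2 = Pool.Agent.K6.H72.TB.Kin (W t) := by
        rw [Fin.sum_univ_three, (dxv 0 t).deriv, (dxv 1 t).deriv, (dxv 2 t).deriv, sq, sq, sq]
        show 1 / 2 * (1 / 4 * ((-(2 / 5) * (W t).1).re ^ 2 + (-(2 / 5) * (W t).1).im ^ 2)
          + 1 / 2 * (((1 / 10) * (W t).1 + (1 / 2) * (W t).2).re ^ 2
            + ((1 / 10) * (W t).1 + (1 / 2) * (W t).2).im ^ 2)
          + 1 / 2 * (((1 / 10) * (W t).1 - (1 / 2) * (W t).2).re ^ 2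
            + ((1 / 10) * (W t).1 - (1 / 2) * (W t).2).im ^ 2)) = _
        unfold Pool.Agent.K6.H72.TB.Kin
        rw [sq, sq]
        simp
        ring
      have hp : potential mm x t = Pool.Agent.K6.H72.TB.Pot (X t) := by
        have a1 : ‖x 0 t - x 1 t‖ = 1 / 2 * ‖(X t).1 + (X t).2‖ := by
          rw [norm_sub_rev, d10, norm_mul]; simp
        have a2 : ‖x 2 t - x 0 t‖ = 1 / 2 * ‖(X t).1 - (X t).2‖ := by
          rw [d20, norm_mul]; simp
        have a3 : ‖x 1 t - x 2 t‖ = ‖(X t).2‖ := by rw [d12]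
        have b1 : ‖(X t).1 + (X t).2‖ ≠ 0 := norm_ne_zero_iff.mpr (NCX t).1
        have b2 : ‖(X t).1 - (X t).2‖ ≠ 0 := norm_ne_zero_iff.mpr (NCX t).2.1
        have b3 : ‖(X t).2‖ ≠ 0 := norm_ne_zero_iff.mpr (NCX t).2.2
        unfold potential Pool.Agent.K6.H72.TB.Pot
        rw [a1, a2, a3]
        show 1 / 4 * (1 / 2) / (1 / 2 * ‖(X t).1 + (X t).2‖) + 1 / 2 * (1 / 2) / ‖(X t).2‖
          + 1 / 2 * (1 / 4) / (1 / 2 * ‖(X t).1 - (X t).2‖) = _
        field_simp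
        ring
      rw [hk, hp]
    rw [e, key]
    have hE := Pool.Agent.K6.H72.TB.energy_le hX0 hW0 hE1 hE2 (NCX 0).2.2
    linarith

/-- the comparison loop -/
theorem competitor : ∃ y : Fin 3 → ℝ → ℂ, (∀ i, ContDiff ℝ (⊤ : ℕ∞) (y i)) ∧ InClass mm 8 y ∧
    action mm 8 y ≤ 643 / 100 := by
  open Pool.Agent.K6.H72.TB in
  have h01 : ∀ t, y 0 t ≠ y 1 t := fun t h => by
    have := n01 t
    rw [h, sub_self, norm_zero] at this
    linarith [(cc_abs t).2]
  have h20 : ∀ t, y 2 t ≠ y 0 t := fun t h => by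
    have := n20 t
    rw [h, sub_self, norm_zero] at this
    linarith [(cc_abs t).1]
  have h12 : ∀ t, y 1 t ≠ y 2 t := fun t h => by
    have := n12 t
    rw [h, sub_self, norm_zero] at this
    linarith [(cc_sq t).2]
  refine ⟨y, y_smooth, ⟨y_per, ?_, ?_, deg01, deg12, deg20⟩, ?_⟩
  · intro i j hij t
    fin_cases i <;> fin_cases j
    · exact absurd rfl hij
    · exact h01 t
    · exact (h20 t).symm
    · exact (h01 t).symm
    · exact absurd rfl hij
    · exact h12 t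
    · exact h20 t
    · exact (h12 t).symm
    · exact absurd rfl hij
  · intro t
    rw [Fin.sum_univ_three]
    simp only [mm, y, yr, yi, Matrix.cons_val_zero, Matrix.cons_val_one, Matrix.cons_val]
    push_cast
    ring
  · unfold action
    have hcont : Continuous fun t => 1 / 2 * ∑ i, mm i * ‖deriv (y i) t‖ ^ 2 + potential mm y t := by
      have hy : ∀ i, Continuous (y i) := fun i => (y_smooth i).continuous
      have hd : ∀ i, Continuous (deriv (y i)) := fun i =>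
        (y_smooth i).continuous_deriv (by simp)
      have h01' : ∀ t, ‖y 0 t - y 1 t‖ ≠ 0 := fun t => norm_ne_zero_iff.mpr (sub_ne_zero.2 (h01 t))
      have h12' : ∀ t, ‖y 1 t - y 2 t‖ ≠ 0 := fun t => norm_ne_zero_iff.mpr (sub_ne_zero.2 (h12 t))
      have h20' : ∀ t, ‖y 2 t - y 0 t‖ ≠ 0 := fun t => norm_ne_zero_iff.mpr (sub_ne_zero.2 (h20 t))
      unfold potential
      refine (continuous_const.mul (continuous_finset_sum _ fun i _ =>
        continuous_const.mul ((hd i).norm.pow 2))).add ?_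
      exact ((continuous_const.div ((hy 0).sub (hy 1)).norm h01').add
        (continuous_const.div ((hy 1).sub (hy 2)).norm h12')).add
        (continuous_const.div ((hy 2).sub (hy 0)).norm h20')
    have hc2 : Continuous fun t => (6169 / 10000 * (1 / 8) + 3 / 8)
        + (6169 / 10000 * (4 / 5) + 5 / 24) * cc t ^ 2 :=
      continuous_const.add (continuous_const.mul (cc_smooth.continuous.pow 2))
    have hle : ∀ t, 1 / 2 * ∑ i, mm i * ‖deriv (y i) t‖ ^ 2 + potential mm y t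
        ≤ (6169 / 10000 * (1 / 8) + 3 / 8) + (6169 / 10000 * (4 / 5) + 5 / 24) * cc t ^ 2 := by
      intro t
      have := lag_le t
      rw [Fin.sum_univ_three]
      unfold potential
      refine le_trans (le_of_eq ?_) this
      simp only [mm, Matrix.cons_val_zero, Matrix.cons_val_one, Matrix.cons_val]
      norm_num
    refine (intervalIntegral.integral_mono_on (by norm_num) (hcont.intervalIntegrable _ _)
      (hc2.intervalIntegrable _ _) (fun t _ => hle t)).trans ?_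
    have hi : IntervalIntegrable (fun t => (6169 / 10000 * (4 / 5) + 5 / 24) * cc t ^ 2) volume 0 8 :=
      (continuous_const.mul (cc_smooth.continuous.pow 2)).intervalIntegrable _ _
    rw [intervalIntegral.integral_add intervalIntegrable_const hi,
      intervalIntegral.integral_const_mul, cc_int]
    simp
    norm_num

/-- **Main result.** -/
theorem result : ∃ x : Fin 3 → ℝ → ℂ, IsSolution mm x ∧ InClass mm 8 x ∧
    ¬ MinimizesSmooth mm 8 x ∧ 708 / 100 ≤ action mm 8 x ∧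
    ∃ y : Fin 3 → ℝ → ℂ, (∀ i, ContDiff ℝ (⊤ : ℕ∞) (y i)) ∧ InClass mm 8 y ∧
      action mm 8 y ≤ 643 / 100 := by
  obtain ⟨x, h1, h2, h3⟩ := orbit
  obtain ⟨y, k1, k2, k3⟩ := competitor
  refine ⟨x, h1, h2, fun h => ?_, h3, y, k1, k2, k3⟩
  have := h y k1 k2
  linarith

end Pool.Agent.Results.MP_c8123f_an.NotMinimizing
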